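import Pool.Agent.Q8.GC.Lin
import Pool.Agent.Q8.GC.Gen

/-!
Two lemmas: the sum of the drops of the ranks of an endomorphism with an isotropic kernel vector, and
the derivative of a polynomial map with values in a subspace.
-/

open MvPolynomial

namespace Pool.Agent.Q8.GD

open Module
open Pool.Agent.Q8.GC

section

variable {K W : Type*} [Field K] [AddCommGroup W] [Module K W] [FiniteDimensional K W]

/-- If a vector of the kernel is not in the range then the rank is at most `dim - 2`, or the ranks
of the powers are constant. -/
theorem cc_or (f : W →ₗ[K] W) {x : W} (hx : f x = 0) (hr : x ∉ LinearMap.range f) :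
    cc f 1 + 2 ≤ finrank K W ∨ ∀ g, 1 ≤ g → nu f g = 0 := by
  have hx0 : x ≠ 0 := by
    rintro rfl
    exact hr (Submodule.zero_mem _)
  have h1 := LinearMap.finrank_range_add_finrank_ker f
  have h6 : cc f 1 = finrank K (LinearMap.range f) := by
    unfold cc
    rw [pow_one]
  by_cases h2 : 2 ≤ finrank K (LinearMap.ker f)
  · left
    omega
  · right
    have h3 : Submodule.span K {x} ≤ LinearMap.ker f := by
      rw [Submodule.span_singleton_le_iff_mem]
      exact hx
    have h4 : Submodule.span K {x} = LinearMap.ker f := by
      apply Submodule.eq_of_le_of_finrank_le h3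
      rw [finrank_span_singleton hx0]
      omega
    have h5 : nu f 1 = 0 := by
      rw [nu_eq, Submodule.finrank_eq_zero, LinearMap.ker_eq_bot']
      intro y hy
      have hy1 : (y : W) ∈ LinearMap.range f := by
        obtain ⟨w, hw⟩ := y.2
        exact ⟨w, by rw [← hw, pow_one]⟩
      have hy2 : (y : W) ∈ Submodule.span K {x} := by
        rw [h4]
        exact hy
      obtain ⟨a, ha⟩ := Submodule.mem_span_singleton.mp hy2
      by_cases ha0 : a = 0
      · apply Subtype.ext
        rw [← ha, ha0, zero_smul]
        rfl
      · exfalso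
        apply hr
        have : x = a⁻¹ • (y : W) := by
          rw [← ha, smul_smul, inv_mul_cancel₀ ha0, one_smul]
        rw [this]
        exact Submodule.smul_mem _ _ hy1
    intro g hg
    exact Nat.le_zero.mp (h5 ▸ nu_antitone f hg)

end

variable {K : Type*} [Field K] {n : ℕ}

/-- The derivative of a polynomial map with values in a subspace has values in the subspace. -/
theorem MM_mem_of_forall [Infinite K] {m : Fin n → MvPolynomial (Fin n) K}
    (T : Submodule K (Fin n → K)) (h : ∀ q, vl q m ∈ T) (q u : Fin n → K) : MM q m u ∈ T := by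
  classical
  by_contra hcon
  obtain ⟨ψ, hψ1, hψ2⟩ := Submodule.exists_dual_map_eq_bot_of_notMem hcon inferInstance
  apply hψ1
  have hψ : ∀ v : Fin n → K, ψ v = ∑ j, v j * ψ (Pi.single j 1) := by
    intro v
    conv_lhs => rw [← Finset.univ_sum_single v]
    rw [map_sum]
    refine Finset.sum_congr rfl fun j _ => ?_
    have : (Pi.single j (v j) : Fin n → K) = v j • Pi.single j 1 := by
      rw [← Pi.single_smul, smul_eq_mul, mul_one]
    rw [this, map_smul, smul_eq_mul]
  have hz : (∑ j, C (ψ (Pi.single j 1)) * m j : MvPolynomial (Fin n) K) = 0 := by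
    apply MvPolynomial.funext
    intro q'
    rw [map_zero, map_sum]
    have h1 : ψ (vl q' m) = 0 := by
      have : ψ (vl q' m) ∈ T.map ψ := ⟨_, h q', rfl⟩
      rw [hψ2] at this
      exact this
    rw [hψ] at h1
    rw [← h1]
    refine Finset.sum_congr rfl fun j _ => ?_
    rw [map_mul, eval_C, mul_comm]
    rfl
  rw [hψ]
  have h2 : ∀ i, ∑ j, eval q (pderiv i (m j)) * ψ (Pi.single j 1) = 0 := by
    intro i
    have h3 := congrArg (fun P => eval q (pderiv i P)) hz
    simp only [map_sum, map_zero, Derivation.leibniz, pderiv_C, smul_eq_mul] at h3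
    rw [← h3]
    refine Finset.sum_congr rfl fun j _ => ?_
    rw [mul_zero, add_zero, map_mul, eval_C, mul_comm]
  simp only [MM_apply, Finset.sum_mul]
  rw [Finset.sum_comm]
  refine Finset.sum_eq_zero fun i _ => ?_
  have h3 := h2 i
  calc ∑ j, u i * eval q (pderiv i (m j)) * ψ (Pi.single j 1)
      = u i * ∑ j, eval q (pderiv i (m j)) * ψ (Pi.single j 1) := by
        rw [Finset.mul_sum]
        exact Finset.sum_congr rfl fun j _ => mul_assoc _ _ _
    _ = 0 := by rw [h3, mul_zero]

end Pool.Agent.Q8.GD
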