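import Pool.Agent.Q8.GD.Main

/-!
The final form: few low powers of linear forms, or zeros of all but one generator in general
position.
-/

open MvPolynomial
open Pool.Agent.W515.SLP (lin)
open H503R3.QCI (Homog Reg homog_span comp_mul_of_lt)
open TH130CI

namespace Pool.Agent.Q8.GD

open Module
open Pool.Agent.Q8.GC

variable {K : Type*} [Field K]

/-- elements of low degree lie in the ideal of the first generators -/
theorem mem_low {N : ℕ} {a : Fin (N + 1) → MvPolynomial (Fin (N + 1)) K}
    {e : Fin (N + 1) → ℕ} (ha : ∀ i, (a i).IsHomogeneous (e i)) {x : MvPolynomial (Fin (N + 1)) K}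
    {m : ℕ} (hx : x.IsHomogeneous m) (hm : m < e (Fin.last N))
    (h : x ∈ Ideal.span (Set.range a)) :
    x ∈ Ideal.span (Set.range fun i : Fin N => a i.castSucc) := by
  have h1 : Ideal.span (Set.range a) ≤
      Ideal.span (Set.range fun i : Fin N => a i.castSucc) ⊔ Ideal.span {a (Fin.last N)} := by
    rw [Ideal.span_le]
    rintro _ ⟨i, rfl⟩
    refine Fin.lastCases ?_ (fun j => ?_) i
    · exact Submodule.mem_sup_right (Ideal.subset_span rfl)
    · exact Submodule.mem_sup_left (Ideal.subset_span ⟨j, rfl⟩)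
  obtain ⟨u, hu, w, hw, huw⟩ := Submodule.mem_sup.mp (h1 h)
  obtain ⟨c, rfl⟩ := Ideal.mem_span_singleton'.mp hw
  have hH : Homog (Ideal.span (Set.range fun i : Fin N => a i.castSucc)) := by
    apply homog_span
    rintro _ ⟨i, rfl⟩
    exact ⟨_, ha _⟩
  have h2 := congrArg (homogeneousComponent m) huw
  rw [map_add, mul_comm, comp_mul_of_lt (ha _) hm, add_zero, homogeneousComponent_of_mem hx,
    if_pos rfl] at h2
  rw [← h2]
  exact hH u hu m

theorem main [CharZero K] {n : ℕ} {a : Fin (n + 2) → MvPolynomial (Fin (n + 2)) K}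
    {d : Fin (n + 2) → ℕ} (ha : ∀ i, (a i).IsHomogeneous (d i)) (hd : ∀ i, 2 ≤ d i)
    (hreg : Reg a) (hmono : Monotone d)
    (h : (∀ k, 1 ≤ k → k + 1 ≤ n → finrank K (Submodule.span K {z : Fin (n + 2) → K |
        (∑ j, z j • X j : MvPolynomial (Fin (n + 2)) K) ^ (k * (d (Fin.last n).castSucc - 1)) ∈
          Ideal.span (Set.range a)}) ≤ k) ∨
      ((n - 1) * (d (Fin.last n).castSucc - 1) < d (Fin.last (n + 1)) ∧
        finrank K (Submodule.span K {z : Fin (n + 2) → K | ∃ m : ℕ,
          (∑ j, z j • X j : MvPolynomial (Fin (n + 2)) K) ^ m ∈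
            Ideal.span (Set.range fun i : Fin (n + 1) => a i.castSucc)}) ≤ 1)) :
    ∃ ℓ : MvPolynomial (Fin (n + 2)) K, ℓ.IsHomogeneous 1 ∧ ∀ i k : ℕ,
      (i ≤ 1 ∨ ∑ j, (d j - 1) ≤ i + k + 1) →
        (∀ g ∈ homogeneousSubmodule (Fin (n + 2)) K i,
          ℓ ^ k * g ∈ Ideal.span (Set.range a) → g ∈ Ideal.span (Set.range a)) ∨
        (∀ h ∈ homogeneousSubmodule (Fin (n + 2)) K (i + k),
          ∃ g ∈ homogeneousSubmodule (Fin (n + 2)) K i,
            h - ℓ ^ k * g ∈ Ideal.span (Set.range a)) := by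
  have hpow : ∀ k, 1 ≤ k → k + 1 ≤ n → finrank K (Submodule.span K {z : Fin (n + 2) → K |
        (∑ j, z j • X j : MvPolynomial (Fin (n + 2)) K) ^ (k * (d (Fin.last n).castSucc - 1)) ∈
          Ideal.span (Set.range a)}) ≤ k := by
    rcases h with h | ⟨h1, h2⟩
    · exact h
    · intro k hk1 hk2
      refine le_trans ?_ (h2.trans hk1)
      apply Submodule.finrank_mono
      apply Submodule.span_mono
      intro z hz
      refine ⟨_, mem_low ha (m := k * (d (Fin.last n).castSucc - 1)) ?_ ?_ hz⟩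
      · have h3 : (∑ j, z j • X j : MvPolynomial (Fin (n + 2)) K).IsHomogeneous 1 := by
          rw [← lin_sum]
          exact lin_homog z
        have h4 := h3.pow (k * (d (Fin.last n).castSucc - 1))
        rwa [one_mul] at h4
      · refine lt_of_le_of_lt (Nat.mul_le_mul_right _ ?_) h1
        omega
  refine maps2 ha hd hreg hmono (D := d (Fin.last n).castSucc)
    ((by omega : 1 ≤ 2).trans (hd _)) (fun i => hmono ?_) (fun k hk1 hk2 => ?_)
  · exact Fin.castSucc_le_castSucc_iff.mpr (Fin.le_last i)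
  · have h3 := hpow k hk1 (by omega)
    have e : {z : Fin (n + 2) → K | (lin z : MvPolynomial (Fin (n + 2)) K) ^
        (k * (d (Fin.last n).castSucc - 1)) ∈ Ideal.span (Set.range a)} =
        {z : Fin (n + 2) → K | (∑ j, z j • X j : MvPolynomial (Fin (n + 2)) K) ^
          (k * (d (Fin.last n).castSucc - 1)) ∈ Ideal.span (Set.range a)} := by
      ext z
      rw [Set.mem_ofPred_eq, Set.mem_ofPred_eq, lin_sum]
    rw [e]
    exact h3

end Pool.Agent.Q8.GD
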