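import Pool.Agent.Q8.GD.Main3
import Pool.Agent.Q8.GD.Fin

/-!
The final form: for each `k` a condition on the degrees or few low powers of linear forms.
-/

open MvPolynomial
open Pool.Agent.W515.SLP (lin)
open H503R3.QCI (Homog Reg homog_span comp_mul_of_lt)

open TH130CI

namespace Pool.Agent.Q8.GD

open Module
open Pool.Agent.Q8.GC

variable {K : Type*} [Field K]

theorem sum_em_eq {N : ℕ} (e : Fin N → ℕ) (k : ℕ) (hk : k + 1 ≤ N) :
    ∑ i ∈ Finset.univ.filter (fun i : Fin N => (i : ℕ) ≤ k), (e i - 1) =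
      ∑ i ∈ Finset.range (k + 1), Pool.Agent.Y204.LF.em e i := by
  refine Finset.sum_bij (fun (i : Fin N) _ => (i : ℕ)) ?_ ?_ ?_ ?_
  · intro i hi
    rw [Finset.mem_filter] at hi
    exact Finset.mem_range.mpr (Nat.lt_succ_of_le hi.2)
  · intro i _ j _ h
    exact Fin.ext h
  · intro b hb
    rw [Finset.mem_range] at hb
    exact ⟨⟨b, by omega⟩, by rw [Finset.mem_filter]; exact ⟨Finset.mem_univ _, by simp only; omega⟩,
      rfl⟩
  · intro i _
    rw [Pool.Agent.Y204.LF.em, dif_pos i.2]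

theorem main3 [CharZero K] {n : ℕ} {a : Fin (n + 2) → MvPolynomial (Fin (n + 2)) K}
    {d : Fin (n + 2) → ℕ} (ha : ∀ i, (a i).IsHomogeneous (d i)) (hd : ∀ i, 2 ≤ d i)
    (hreg : Reg a) (hmono : Monotone d)
    (h : ∀ k, 1 ≤ k → k + 1 ≤ n →
      k * (d (Fin.last n).castSucc - 1) ≤
        ∑ i ∈ Finset.univ.filter (fun i : Fin (n + 2) => (i : ℕ) ≤ k), (d i - 1) ∨
      finrank K (Submodule.span K {z : Fin (n + 2) → K |
        (∑ j, z j • X j : MvPolynomial (Fin (n + 2)) K) ^ (k * (d (Fin.last n).castSucc - 1)) ∈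
          Ideal.span (Set.range a)}) ≤ k) :
    ∃ ℓ : MvPolynomial (Fin (n + 2)) K, ℓ.IsHomogeneous 1 ∧ ∀ i k : ℕ,
      (i ≤ 1 ∨ ∑ j, (d j - 1) ≤ i + k + 1) →
        (∀ g ∈ homogeneousSubmodule (Fin (n + 2)) K i,
          ℓ ^ k * g ∈ Ideal.span (Set.range a) → g ∈ Ideal.span (Set.range a)) ∨
        (∀ h ∈ homogeneousSubmodule (Fin (n + 2)) K (i + k),
          ∃ g ∈ homogeneousSubmodule (Fin (n + 2)) K i,
            h - ℓ ^ k * g ∈ Ideal.span (Set.range a)) := by
  refine maps3 ha hd hreg hmono (D := d (Fin.last n).castSucc)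
    ((by omega : 1 ≤ 2).trans (hd _)) (fun i => hmono ?_) (fun k hk1 hk2 => ?_)
  · exact Fin.castSucc_le_castSucc_iff.mpr (Fin.le_last i)
  · rcases h k hk1 (by omega) with h3 | h3
    · left
      rwa [sum_em_eq d k (by omega)] at h3
    · right
      have e : {z : Fin (n + 2) → K | (lin z : MvPolynomial (Fin (n + 2)) K) ^
          (k * (d (Fin.last n).castSucc - 1)) ∈ Ideal.span (Set.range a)} =
          {z : Fin (n + 2) → K | (∑ j, z j • X j : MvPolynomial (Fin (n + 2)) K) ^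
            (k * (d (Fin.last n).castSucc - 1)) ∈ Ideal.span (Set.range a)} := by
        ext z
        rw [Set.mem_ofPred_eq, Set.mem_ofPred_eq, lin_sum]
      rw [e]
      exact h3

end Pool.Agent.Q8.GD
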