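import Pool.Agent.Q8.GC.Main
import Pool.Agent.Q8.GD.Core

/-!
Maximal rank of the maps `ℓ ^ k` in degrees `≤ 1` and `≥ σ - 1` for complete intersections which
contain few low powers of linear forms.
-/

open MvPolynomial
open Pool.Agent.W515.SLP (AnnP Deg annP_zero annP_of_gt annP_of_homog lin act phi act_eq_zero_iff
  deg_phi coeff_lin_pow phi_apply phi_mul_monomial)
open H503R3.QCI (Homog NZD Reg isSocleDegree_ci gr mem_gr)
open TH130CI
open Pool.Agent.Y204.LF (extend_reg prime_of_gr reg_prefix em sum_em bound_sorted reg_lin lin_eq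
  openC_nzd exists_lin_of_reg)

namespace Pool.Agent.Q8.GD

open Module
open Pool.Agent.Q8.GC

variable {K : Type*} [Field K]

theorem core2 [CharZero K] {N : ℕ} {a : Fin (N + 1) → MvPolynomial (Fin (N + 1)) K}
    {e : Fin (N + 1) → ℕ} (ha : ∀ i, (a i).IsHomogeneous (e i)) (he : ∀ i, 2 ≤ e i)
    (hreg : Reg a) (hmono : Monotone e) {D : ℕ} (hD1 : 1 ≤ D) (hD : ∀ i : Fin N, e i.castSucc ≤ D)
    (hpow : ∀ k, 1 ≤ k → k + 2 ≤ N → finrank K (Submodule.span K {z : Fin (N + 1) → K |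
      (lin z : MvPolynomial (Fin (N + 1)) K) ^ (k * (D - 1)) ∈ Ideal.span (Set.range a)}) ≤ k)
    {P : MvPolynomial (Fin (N + 1)) K} (hP : P ≠ 0) :
    ∃ q : Fin (N + 1) → K, eval q P ≠ 0 ∧ ∀ z : Fin (N + 1) → K,
      lin q ^ (∑ i, (e i - 1) - 2) * lin z ∈ Ideal.span (Set.range a) → z = 0 := by
  classical
  have he1 : ∀ i, 1 ≤ e i := fun i => (by omega : 1 ≤ 2).trans (he i)
  have hlin : ∀ z : Fin (N + 1) → K,
      (lin z : MvPolynomial (Fin (N + 1)) K) ∈ Ideal.span (Set.range a) → z = 0 :=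
    fun z hz => lin_notMem ha he hreg hmono hz
  rcases Nat.eq_zero_or_pos (∑ i, (e i - 1) - 2) with h0 | hs
  · obtain ⟨q, hq⟩ : ∃ q, eval q P ≠ 0 := by
      by_contra hcon
      push Not at hcon
      exact hP (MvPolynomial.funext fun q => by rw [hcon, map_zero])
    refine ⟨q, hq, fun z hz => ?_⟩
    rw [h0, pow_zero, one_mul] at hz
    exact hlin z hz
  · by_contra hcon
    push Not at hcon
    set s := ∑ i, (e i - 1) - 2 with hsdef
    have hσ : ∑ i, (e i - 1) = s + 2 := by omega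
    obtain ⟨φ, hφ, hI⟩ := ci_gor ha he1 hreg
    rw [hσ] at hφ
    have hS : Soc (Ideal.span (Set.range a)) (s + 2) := by
      intro j w hw hj hXw
      rw [← hσ] at hj
      exact socle_ci _ a e ha he1 (sreg_of_reg ha he1 hreg) rfl j w hw hj hXw
    have hker := exists_ker hφ hI hP (fun q hq => by
      obtain ⟨z, hz1, hz2⟩ := hcon q hq
      exact ⟨z, hz2, hz1⟩)
    obtain ⟨m, j0, hj0, hm, hmm, hmX⟩ := exists_min hS le_rfl hs hker
    have hreg0 : Reg (fun i : Fin N => a i.castSucc) := reg_prefix (Nat.le_succ N) hreg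
    have hne : {q : Fin (N + 1) → K |
        NZD (Ideal.span (Set.range fun i : Fin N => a i.castSucc)) (lin q)}.Nonempty :=
      exists_lin_of_reg (Nat.lt_succ_self N) (fun i => ha _) (fun i => he1 _) hreg0
    obtain ⟨q, hqS, hqj, hq⟩ := exists_point (I := Ideal.span (Set.range a))
      (openC_nzd (Ideal.span (Set.range fun i : Fin N => a i.castSucc))) hne (s + 2) hj0
    exact contra2 ha he hreg hD1 hD hlin hpow hs hσ hm hmm hmX hqS hqj
      (fun x y hx hy => hq x y hx hy)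

/-- **Maximal rank of the maps from degree at most one and to degree at least `σ - 1`.** -/
theorem maps2 [CharZero K] {N : ℕ} {a : Fin (N + 1) → MvPolynomial (Fin (N + 1)) K}
    {e : Fin (N + 1) → ℕ} (ha : ∀ i, (a i).IsHomogeneous (e i)) (he : ∀ i, 2 ≤ e i)
    (hreg : Reg a) (hmono : Monotone e) {D : ℕ} (hD1 : 1 ≤ D) (hD : ∀ i : Fin N, e i.castSucc ≤ D)
    (hpow : ∀ k, 1 ≤ k → k + 2 ≤ N → finrank K (Submodule.span K {z : Fin (N + 1) → K |
      (lin z : MvPolynomial (Fin (N + 1)) K) ^ (k * (D - 1)) ∈ Ideal.span (Set.range a)}) ≤ k) :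
    ∃ ℓ : MvPolynomial (Fin (N + 1)) K, ℓ.IsHomogeneous 1 ∧ ∀ i k : ℕ,
      (i ≤ 1 ∨ ∑ j, (e j - 1) ≤ i + k + 1) →
        (∀ g ∈ homogeneousSubmodule (Fin (N + 1)) K i,
          ℓ ^ k * g ∈ Ideal.span (Set.range a) → g ∈ Ideal.span (Set.range a)) ∨
        (∀ h ∈ homogeneousSubmodule (Fin (N + 1)) K (i + k),
          ∃ g ∈ homogeneousSubmodule (Fin (N + 1)) K i,
            h - ℓ ^ k * g ∈ Ideal.span (Set.range a)) := by
  classical
  have he1 : ∀ i, 1 ≤ e i := fun i => (by omega : 1 ≤ 2).trans (he i)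
  have hS : Soc (Ideal.span (Set.range a)) (∑ i, (e i - 1)) := fun j w hw hj hXw =>
    socle_ci _ a e ha he1 (sreg_of_reg ha he1 hreg) rfl j w hw hj hXw
  have h1 := ell_pow_ne hS (one_notMem ha he1 hreg) _ le_rfl
  obtain ⟨ψ, hψ⟩ := exists_cmap_ne (K := K) h1
  obtain ⟨q, hq1, hq2⟩ := core2 ha he hreg hmono hD1 hD hpow hψ
  obtain ⟨φ, hφ, hI⟩ := ci_gor ha he1 hreg
  refine ⟨_, lin_homog q, fun i k hik => maps hφ hI ?_ hq2 i k hik⟩
  intro hmem
  apply hq1
  rw [eval_cmap, map_pow, ev_ell, ← map_pow, Ideal.Quotient.eq_zero_iff_mem.mpr hmem, map_zero]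

end Pool.Agent.Q8.GD
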